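import Pool.Agent.Helper3.HS.AvgFibre
import Pool.Agent.Helper3.HS.Core

/-!
# Local set-up for the action of a compact abelian group near a regular point

The action is written in a chart on a ball; the resulting maps are orientation preserving, and
their average over the group is an invariant map of degree one.
-/

set_option autoImplicit false
set_option linter.unusedSectionVars false
set_option linter.unusedVariables false

open Set MeasureTheory Metric Filter Topology
open scoped NNReal ENNReal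

namespace Pool.Agent.Rank

open Pool.Agent.Helper3.HS

/-- An action of the group `A` on a bounded open set by orientation preserving maps. -/
structure Dat {V : Type*} [NormedAddCommGroup V] [NormedSpace ℝ V] [FiniteDimensional ℝ V]
    [MeasurableSpace V] [BorelSpace V] (μ : Measure V) [μ.IsAddHaarMeasure]
    (A : Type*) [AddCommGroup A] [TopologicalSpace A] where
  U : Set V
  g : A → V → V
  hU : IsOpen U
  hUb : Bornology.IsBounded U
  hg : Continuous (fun q : A × V => g q.1 q.2)
  hgU : ∀ a, ∀ x ∈ U, g a x ∈ U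
  hg0 : ∀ x ∈ U, g 0 x = x
  hgadd : ∀ a b, ∀ x ∈ U, g (a + b) x = g a (g b x)
  hpos : ∀ a, ∀ O ⊆ U, IsOpen O → ∀ x ∈ O, HasDeg μ O (g a) (g a x) 1

variable {d : ℕ} {X : Type*} [MetricSpace X] {A : Type*} [AddCommGroup A] [TopologicalSpace A]
  [CompactSpace A]

/-- The map of the ball given by `a` in the chart `e` (extended to the whole space). -/
noncomputable def cact (e : OpenPartialHomeomorph X (Fin (d + 1) → ℝ)) (τ : A → X → X)
    (c : Fin (d + 1) → ℝ) (s : ℝ) (a : A) (u : Fin (d + 1) → ℝ) : Fin (d + 1) → ℝ :=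
  e (τ a (e.symm (clamp c s u)))

/-- The invariant part of the ball. -/
def cset (e : OpenPartialHomeomorph X (Fin (d + 1) → ℝ)) (τ : A → X → X)
    (c : Fin (d + 1) → ℝ) (s : ℝ) : Set (Fin (d + 1) → ℝ) :=
  {u | u ∈ ball c s ∧ ∀ a : A, cact e τ c s a u ∈ ball c s}

variable {e : OpenPartialHomeomorph X (Fin (d + 1) → ℝ)} {τ : A → X → X}
  {c : Fin (d + 1) → ℝ} {s : ℝ}

theorem cact_of_mem (hs : 0 < s) (a : A) {u : Fin (d + 1) → ℝ} (hu : u ∈ closedBall c s) :
    cact e τ c s a u = e (τ a (e.symm u)) := by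
  unfold cact
  rw [clamp_of_mem hs hu]

theorem cact_continuous (hs : 0 < s) (hτ : Continuous (fun q : A × X => τ q.1 q.2))
    (hB : closedBall c s ⊆ e.target)
    (hsrc : ∀ a : A, ∀ u ∈ closedBall c s, τ a (e.symm u) ∈ e.source) :
    Continuous (fun q : A × (Fin (d + 1) → ℝ) => cact e τ c s q.1 q.2) := by
  have h1 : Continuous (fun q : A × (Fin (d + 1) → ℝ) => e.symm (clamp c s q.2)) :=
    e.symm.continuousOn.comp_continuous ((continuous_clamp c s).comp continuous_snd)
      (fun q => hB (clamp_mem hs q.2))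
  have h2 : Continuous (fun q : A × (Fin (d + 1) → ℝ) => τ q.1 (e.symm (clamp c s q.2))) :=
    hτ.comp (f := fun q : A × (Fin (d + 1) → ℝ) => (q.1, e.symm (clamp c s q.2)))
      (continuous_fst.prodMk h1)
  exact e.continuousOn.comp_continuous h2 (fun q => hsrc q.1 _ (clamp_mem hs q.2))

theorem cact_add (hs : 0 < s) (hadd : ∀ a b x, τ (a + b) x = τ a (τ b x))
    (hsrc : ∀ a : A, ∀ u ∈ closedBall c s, τ a (e.symm u) ∈ e.source) (a b : A)
    {u : Fin (d + 1) → ℝ} (hu : u ∈ closedBall c s) (hb : cact e τ c s b u ∈ closedBall c s) :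
    cact e τ c s (a + b) u = cact e τ c s a (cact e τ c s b u) := by
  rw [cact_of_mem hs a hb, cact_of_mem hs b hu, cact_of_mem hs _ hu,
    e.left_inv (hsrc b u hu), hadd]

theorem cset_isOpen (hs : 0 < s) (hτ : Continuous (fun q : A × X => τ q.1 q.2))
    (hB : closedBall c s ⊆ e.target)
    (hsrc : ∀ a : A, ∀ u ∈ closedBall c s, τ a (e.symm u) ∈ e.source) :
    IsOpen (cset e τ c s) := by
  set S : Set (A × (Fin (d + 1) → ℝ)) :=
    (fun q : A × (Fin (d + 1) → ℝ) => cact e τ c s q.1 q.2) ⁻¹' (ball c s) with hS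
  have hSo : IsOpen S := isOpen_ball.preimage (cact_continuous hs hτ hB hsrc)
  have h1 : cset e τ c s = ball c s ∩ (Prod.snd '' Sᶜ)ᶜ := by
    ext u
    simp only [cset, mem_ofPred_eq, mem_inter_iff, mem_compl_iff, mem_image, Prod.exists,
      exists_eq_right]
    constructor
    · rintro ⟨h2, h3⟩
      refine ⟨h2, ?_⟩
      rintro ⟨a, ha⟩
      exact ha (h3 a)
    · rintro ⟨h2, h3⟩
      refine ⟨h2, fun a => ?_⟩
      by_contra hcon
      exact h3 ⟨a, hcon⟩
  rw [h1]
  exact isOpen_ball.inter (isClosedMap_snd_of_compactSpace _ hSo.isClosed_compl).isOpen_compl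

theorem cset_cact (hs : 0 < s) (hadd : ∀ a b x, τ (a + b) x = τ a (τ b x))
    (hsrc : ∀ a : A, ∀ u ∈ closedBall c s, τ a (e.symm u) ∈ e.source) (a : A)
    {u : Fin (d + 1) → ℝ} (hu : u ∈ cset e τ c s) : cact e τ c s a u ∈ cset e τ c s := by
  refine ⟨hu.2 a, fun b => ?_⟩
  rw [← cact_add hs hadd hsrc b a (ball_subset_closedBall hu.1)
    (ball_subset_closedBall (hu.2 a))]
  exact hu.2 _

/-- **The local set-up.** -/
theorem local_setup (hs : 0 < s) (hτ : Continuous (fun q : A × X => τ q.1 q.2))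
    (h0 : ∀ x, τ 0 x = x) (hadd : ∀ a b x, τ (a + b) x = τ a (τ b x))
    (hB : closedBall c s ⊆ e.target)
    (hsrc : ∀ a : A, ∀ u ∈ closedBall c s, τ a (e.symm u) ∈ e.source)
    (hcl : ∀ a : A, ∀ u ∈ closedBall c s, dist (e (τ a (e.symm u))) u < s / 8) :
    ∃ D : Dat (volume : Measure (Fin (d + 1) → ℝ)) A, D.U = cset e τ c s ∧
      D.g = cact e τ c s ∧ ball c (7 * s / 8) ⊆ D.U ∧ D.U ⊆ ball c s ∧
      (∀ a, ∀ u ∈ closedBall c s, dist (D.g a u) u < s / 8) := by
  have hc : Continuous (fun q : A × (Fin (d + 1) → ℝ) => cact e τ c s q.1 q.2) :=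
    cact_continuous hs hτ hB hsrc
  have hca : ∀ a, Continuous (cact e τ c s a) := fun a =>
    hc.comp (f := fun x : Fin (d + 1) → ℝ => ((a, x) : A × (Fin (d + 1) → ℝ))) (by fun_prop)
  have hUo : IsOpen (cset e τ c s) := cset_isOpen hs hτ hB hsrc
  have hUQ : cset e τ c s ⊆ ball c s := fun u hu => hu.1
  have hcl' : ∀ a, ∀ u ∈ closedBall c s, dist (cact e τ c s a u) u < s / 8 := by
    intro a u hu
    rw [cact_of_mem hs a hu]
    exact hcl a u hu
  have hhalf : ball c (7 * s / 8) ⊆ cset e τ c s := by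
    intro u hu
    rw [mem_ball] at hu
    have hu' : u ∈ closedBall c s := by rw [mem_closedBall]; linarith
    refine ⟨by rw [mem_ball]; linarith, fun a => ?_⟩
    rw [mem_ball]
    have h3 := hcl' a u hu'
    have h4 := dist_triangle (cact e τ c s a u) u c
    linarith
  have hclb : closure (ball c s) = closedBall c s := closure_ball c hs.ne'
  have hinvτ : ∀ a x, τ (-a) (τ a x) = x := fun a x => by rw [← hadd, neg_add_cancel, h0]
  have hinvτ' : ∀ a x, τ a (τ (-a) x) = x := fun a x => by rw [← hadd, add_neg_cancel, h0]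
  have hτa : ∀ a, Continuous (τ a) := fun a =>
    hτ.comp (f := fun x : X => ((a, x) : A × X)) (by fun_prop)
  have hpos : ∀ a, ∀ O ⊆ cset e τ c s, IsOpen O → ∀ x ∈ O,
      HasDeg volume O (cact e τ c s a) (cact e τ c s a x) 1 := by
    intro a
    obtain ⟨σ, hσ1, hσ⟩ := exists_sign volume (Q := ball c s) isOpen_ball isBounded_ball
      (convex_ball c s).isPreconnected ⟨c, mem_ball_self hs⟩ (hca a) (by
        rw [hclb]
        intro u hu v hv huv
        rw [cact_of_mem hs a hu, cact_of_mem hs a hv] at huv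
        have h1 := e.injOn (hsrc a u hu) (hsrc a v hv) huv
        have h2 : e.symm u = e.symm v := by
          rw [← hinvτ a (e.symm u), h1, hinvτ]
        exact e.symm.injOn (hB hu) (hB hv) h2) (by
        have h1 : cact e τ c s a '' ball c s = e '' ((τ a) '' (e.symm '' ball c s)) := by
          rw [image_image, image_image]
          exact image_congr fun u hu => cact_of_mem hs a (ball_subset_closedBall hu)
        rw [h1]
        have hOt : ball c s ⊆ e.target := ball_subset_closedBall.trans hB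
        have h2 : IsOpen (e.symm '' ball c s) :=
          e.isOpen_image_symm_of_subset_target isOpen_ball hOt
        have h3 : (τ a) '' (e.symm '' ball c s) = (τ (-a)) ⁻¹' (e.symm '' ball c s) :=
          congrFun (image_eq_preimage_of_inverse (hinvτ a) (hinvτ' a)) _
        have h4 : IsOpen ((τ a) '' (e.symm '' ball c s)) := by
          rw [h3]
          exact h2.preimage (hτa (-a))
        apply e.isOpen_image_of_subset_source h4
        rintro _ ⟨_, ⟨u, hu, rfl⟩, rfl⟩
        exact hsrc a u (ball_subset_closedBall hu))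
    have hone : σ = 1 := by
      have h1 : HasDeg volume (ball c s) (cact e τ c s a) (cact e τ c s a c) σ :=
        hσ _ Subset.rfl isOpen_ball c (mem_ball_self hs)
      have h2 : HasDeg volume (ball c s) (fun x => x) c 1 :=
        HasDeg.id volume isOpen_ball isBounded_ball (mem_ball_self hs)
      have h3 : HasDeg volume (ball c s) (cact e τ c s a) (cact e τ c s a c) 1 := by
        apply HasDeg.homotopy volume isOpen_ball isBounded_ball continuousOn_id
          (hca a).continuousOn h2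
        intro x hx t ht heq
        simp only [id] at heq
        have hxc : x ∈ closedBall c s := by
          rw [← hclb]; exact frontier_subset_closure hx
        have hxs : dist x c = s := by
          rw [isOpen_ball.frontier_eq, hclb] at hx
          have h5 := hx.1
          have h6 := hx.2
          rw [mem_closedBall] at h5
          rw [mem_ball, not_lt] at h6
          exact le_antisymm h5 h6
        have h5 : x - c = -(t • ((cact e τ c s a x - x) - (cact e τ c s a c - c))) := by
          have h6 : (1 - t) • (x - c) + t • (cact e τ c s a x - cact e τ c s a c) =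
              (x - c) + t • ((cact e τ c s a x - x) - (cact e τ c s a c - c)) := by module
          rw [h6] at heq
          exact eq_neg_of_add_eq_zero_left heq
        have h6 : dist x c ≤ s / 4 := by
          rw [dist_eq_norm, h5, norm_neg, norm_smul, Real.norm_of_nonneg ht.1]
          have h7 := norm_sub_le (cact e τ c s a x - x) (cact e τ c s a c - c)
          have h8 := hcl' a x hxc
          have h9 := hcl' a c (mem_closedBall_self hs.le)
          rw [dist_eq_norm] at h8 h9
          calc t * ‖(cact e τ c s a x - x) - (cact e τ c s a c - c)‖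
              ≤ 1 * ‖(cact e τ c s a x - x) - (cact e τ c s a c - c)‖ :=
                mul_le_mul_of_nonneg_right ht.2 (norm_nonneg _)
            _ ≤ s / 4 := by linarith
        linarith
      exact HasDeg.unique volume isOpen_ball isBounded_ball (hca a).continuousOn h1 h3
    intro O hO hOo x hx
    have := hσ O (hO.trans hUQ) hOo x hx
    rwa [hone] at this
  refine ⟨⟨cset e τ c s, cact e τ c s, hUo, isBounded_ball.subset hUQ, hc, ?_, ?_, ?_, hpos⟩,
    rfl, rfl, hhalf, hUQ, hcl'⟩
  · exact fun a x hx => cset_cact hs hadd hsrc a hx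
  · intro x hx
    have hxc := ball_subset_closedBall (hUQ hx)
    rw [cact_of_mem hs 0 hxc, h0, e.right_inv (hB hxc)]
  · intro a b x hx
    exact cact_add hs hadd hsrc a b (ball_subset_closedBall hx.1) (ball_subset_closedBall (hx.2 b))

section average

variable [MeasurableSpace A] [BorelSpace A] (ν : Measure A) [IsProbabilityMeasure ν]

/-- The average of the maps of an action. -/
noncomputable def Dat.avg (D : Dat (volume : Measure (Fin (d + 1) → ℝ)) A)
    (u : Fin (d + 1) → ℝ) : Fin (d + 1) → ℝ := ∫ a, D.g a u ∂ν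

theorem Dat.avg_cont (D : Dat (volume : Measure (Fin (d + 1) → ℝ)) A) :
    Continuous (D.avg ν) := avg_continuous (ν := ν) D.hg

theorem Dat.avg_dist (D : Dat (volume : Measure (Fin (d + 1) → ℝ)) A)
    {u v : Fin (d + 1) → ℝ} {δ : ℝ} (h : ∀ a, dist (D.g a u) v ≤ δ) :
    dist (D.avg ν u) v ≤ δ := by
  unfold Dat.avg
  have h1 : (∫ a, D.g a u ∂ν) - v = ∫ a, (D.g a u - v) ∂ν := by
    rw [integral_sub (avg_integrable D.hg u) (integrable_const v), integral_const]
    simp
  rw [dist_eq_norm, h1]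
  have h2 := norm_integral_le_of_norm_le_const (μ := ν) (f := fun a => D.g a u - v) (C := δ)
    (ae_of_all _ fun a => by rw [← dist_eq_norm]; exact h a)
  simpa using h2

theorem Dat.avg_inv [IsTopologicalAddGroup A] [ν.IsAddRightInvariant]
    (D : Dat (volume : Measure (Fin (d + 1) → ℝ)) A)
    (b : A) {u : Fin (d + 1) → ℝ} (hu : u ∈ D.U) : D.avg ν (D.g b u) = D.avg ν u := by
  unfold Dat.avg
  have h1 : ∀ a, D.g a (D.g b u) = D.g (a + b) u := fun a => (D.hgadd a b u hu).symm
  simp only [h1]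
  exact integral_add_right_eq_self (fun a => D.g a u) b

theorem Dat.avg_deg (D : Dat (volume : Measure (Fin (d + 1) → ℝ)) A)
    {c : Fin (d + 1) → ℝ} {s : ℝ} (hs : 0 < s) (h1 : ball c (7 * s / 8) ⊆ D.U)
    (h2 : D.U ⊆ ball c s) (h3 : ∀ a, ∀ u ∈ closedBall c s, dist (D.g a u) u < s / 8)
    {y : Fin (d + 1) → ℝ} (hy : y ∈ ball c (3 * s / 4)) :
    HasDeg volume D.U (D.avg ν) y 1 := by
  have hyU : y ∈ D.U := h1 (ball_subset_ball (by linarith) hy)
  apply HasDeg.homotopy volume D.hU D.hUb continuousOn_id (D.avg_cont ν).continuousOn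
    (HasDeg.id volume D.hU D.hUb hyU)
  intro x hx t ht heq
  simp only [id] at heq
  have hxc : x ∈ closedBall c s := by
    rw [← closure_ball c hs.ne']
    exact closure_mono h2 (frontier_subset_closure hx)
  have hx7 : 7 * s / 8 ≤ dist x c := by
    by_contra hcon
    push Not at hcon
    rw [D.hU.frontier_eq] at hx
    exact hx.2 (h1 hcon)
  have h4 : dist (D.avg ν x) x ≤ s / 8 := D.avg_dist ν (fun a => (h3 a x hxc).le)
  have h5 : x - y = -(t • (D.avg ν x - x)) := by
    have h6 : (1 - t) • (x - y) + t • (D.avg ν x - y) = (x - y) + t • (D.avg ν x - x) := by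
      module
    rw [h6] at heq
    exact eq_neg_of_add_eq_zero_left heq
  have h6 : dist x y ≤ s / 8 := by
    rw [dist_eq_norm, h5, norm_neg, norm_smul, Real.norm_of_nonneg ht.1, ← dist_eq_norm]
    calc t * dist (D.avg ν x) x ≤ 1 * (s / 8) :=
          mul_le_mul ht.2 h4 dist_nonneg zero_le_one
      _ = s / 8 := one_mul _
  rw [mem_ball] at hy
  have h7 := dist_triangle x y c
  linarith

end average

/-- On a compact set of the group without fixed points the displacement is bounded below. -/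
theorem Dat.displacement {V : Type*} [NormedAddCommGroup V] [NormedSpace ℝ V]
    [FiniteDimensional ℝ V] [MeasurableSpace V] [BorelSpace V] {μ : Measure V}
    [μ.IsAddHaarMeasure] (D : Dat μ A) {S : Set A} (hS : IsClosed S) {K : Set V}
    (hK : IsCompact K) (hfix : ∀ a ∈ S, ∀ u ∈ K, D.g a u ≠ u) :
    ∃ η > 0, ∀ a ∈ S, ∀ u ∈ K, η ≤ dist (D.g a u) u := by
  rcases (S ×ˢ K).eq_empty_or_nonempty with hE | hne
  · refine ⟨1, one_pos, fun a ha u hu => ?_⟩
    have : (a, u) ∈ S ×ˢ K := ⟨ha, hu⟩
    rw [hE] at this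
    exact absurd this (notMem_empty _)
  · have hc : ContinuousOn (fun q : A × V => dist (D.g q.1 q.2) q.2) (S ×ˢ K) :=
      (D.hg.dist continuous_snd).continuousOn
    obtain ⟨q, hq, hmin⟩ := (hS.isCompact.prod hK).exists_isMinOn hne hc
    refine ⟨dist (D.g q.1 q.2) q.2, dist_pos.mpr (hfix q.1 hq.1 q.2 hq.2), ?_⟩
    intro a ha u hu
    exact hmin (a := (a, u)) ⟨ha, hu⟩

section scale

variable {B : Type*} [AddCommGroup B] [TopologicalSpace B] [AddAction B X] [ContinuousVAdd B X]

/-- The translates by small group elements of a small ball stay in the chart and are close to the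
identity. -/
theorem exists_ball {x₀ : X} (hx : x₀ ∈ e.source) {W : Set X} (hW : W ∈ 𝓝 x₀) {r : ℝ}
    (hr : 0 < r) :
    ∃ s : ℝ, 0 < s ∧ s ≤ r ∧ closedBall (e x₀) s ⊆ e.target ∧
      (∀ u ∈ closedBall (e x₀) s, e.symm u ∈ W) ∧
      ∀ᶠ a : B in 𝓝 0, ∀ u ∈ closedBall (e x₀) s, a +ᵥ e.symm u ∈ e.source ∧
        a +ᵥ e.symm u ∈ W ∧ dist (e (a +ᵥ e.symm u)) u < s / 8 := by
  have h1 : e.target ∩ e.symm ⁻¹' (interior W) ∈ 𝓝 (e x₀) := by
    apply inter_mem (e.open_target.mem_nhds (e.map_source hx))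
    apply (e.symm.continuousAt (e.map_source hx)).preimage_mem_nhds
    rw [e.left_inv hx]
    exact interior_mem_nhds.mpr hW
  obtain ⟨s₁, hs₁, hball⟩ := Metric.nhds_basis_closedBall.mem_iff.mp h1
  set s := min s₁ r with hsdef
  have hs : 0 < s := lt_min hs₁ hr
  have hball' : closedBall (e x₀) s ⊆ e.target ∩ e.symm ⁻¹' (interior W) :=
    (closedBall_subset_closedBall (min_le_left _ _)).trans hball
  refine ⟨s, hs, min_le_right _ _, fun u hu => (hball' hu).1,
    fun u hu => interior_subset (hball' hu).2, ?_⟩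
  apply (isCompact_closedBall (e x₀) s).eventually_forall_of_forall_eventually
  intro u hu
  have hut : u ∈ e.target := (hball' hu).1
  have c1 : ContinuousAt (fun z : B × (Fin (d + 1) → ℝ) => e.symm z.2) (0, u) :=
    ContinuousAt.comp (g := e.symm) (f := fun z : B × (Fin (d + 1) → ℝ) => z.2)
      (e.symm.continuousAt hut) continuousAt_snd
  have c2 : ContinuousAt (fun z : B × (Fin (d + 1) → ℝ) => z.1 +ᵥ e.symm z.2) (0, u) :=
    continuousAt_fst.vadd c1
  have hval : (0 : B) +ᵥ e.symm u = e.symm u := zero_vadd _ _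
  have c3 : ContinuousAt (fun z : B × (Fin (d + 1) → ℝ) => e (z.1 +ᵥ e.symm z.2)) (0, u) := by
    apply ContinuousAt.comp (g := e) (f := fun z : B × (Fin (d + 1) → ℝ) => z.1 +ᵥ e.symm z.2) _ c2
    simp only [hval]
    exact e.continuousAt (e.map_target hut)
  have c4 : ContinuousAt (fun z : B × (Fin (d + 1) → ℝ) => dist (e (z.1 +ᵥ e.symm z.2)) z.2)
      (0, u) := c3.dist continuousAt_snd
  have e1 : ∀ᶠ z : B × (Fin (d + 1) → ℝ) in 𝓝 (0, u), z.1 +ᵥ e.symm z.2 ∈ e.source := by
    apply c2.preimage_mem_nhds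
    simp only [hval]
    exact e.open_source.mem_nhds (e.map_target hut)
  have e2 : ∀ᶠ z : B × (Fin (d + 1) → ℝ) in 𝓝 (0, u), z.1 +ᵥ e.symm z.2 ∈ interior W := by
    apply c2.preimage_mem_nhds
    simp only [hval]
    exact isOpen_interior.mem_nhds (hball' hu).2
  have e3 : ∀ᶠ z : B × (Fin (d + 1) → ℝ) in 𝓝 (0, u),
      dist (e (z.1 +ᵥ e.symm z.2)) z.2 < s / 8 := by
    apply c4.eventually (gt_mem_nhds _)
    simp only [hval, e.right_inv hut, dist_self]
    positivity
  filter_upwards [e1, e2, e3] with z z1 z2 z3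
  exact ⟨z1, interior_subset z2, z3⟩

/-- The subgroups `p ^ k` times the group shrink to the identity. -/
theorem eventually_pow_smul {p m : ℕ} [hp : Fact p.Prime] {P : (Fin m → ℤ_[p]) → Prop}
    (hP : ∀ᶠ a : Fin m → ℤ_[p] in 𝓝 0, P a) :
    ∃ k₀ : ℕ, ∀ k ≥ k₀, ∀ a : Fin m → ℤ_[p], P ((p : ℤ_[p]) ^ k • a) := by
  obtain ⟨ε, hε, hball⟩ := Metric.eventually_nhds_iff.mp hP
  have hp1 : (1 : ℝ) < p := by exact_mod_cast hp.out.one_lt
  obtain ⟨k₀, hk₀⟩ := exists_pow_lt_of_lt_one hε
    (show ((p : ℝ))⁻¹ < 1 from inv_lt_one_of_one_lt₀ hp1)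
  refine ⟨k₀, fun k hk a => hball ?_⟩
  rw [dist_pi_lt_iff hε]
  intro i
  rw [dist_eq_norm, Pi.zero_apply, sub_zero, Pi.smul_apply, smul_eq_mul, norm_mul]
  have h1 : ‖(p : ℤ_[p]) ^ k‖ = ((p : ℝ)⁻¹) ^ k := by
    rw [norm_pow, PadicInt.norm_p]
  rw [h1]
  calc ((p : ℝ)⁻¹) ^ k * ‖a i‖ ≤ ((p : ℝ)⁻¹) ^ k * 1 := by
        gcongr
        exact PadicInt.norm_le_one _
    _ = ((p : ℝ)⁻¹) ^ k := mul_one _
    _ ≤ ((p : ℝ)⁻¹) ^ k₀ := by
        apply pow_le_pow_of_le_one (by positivity) (inv_le_one_of_one_le₀ hp1.le) hk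
    _ < ε := hk₀

/-- The complement of `p` times the group is closed. -/
theorem isClosed_compl_p {p m : ℕ} [hp : Fact p.Prime] :
    IsClosed {a : Fin m → ℤ_[p] | ¬ ∃ b : Fin m → ℤ_[p], a = (p : ℤ_[p]) • b} := by
  have h1 : {a : Fin m → ℤ_[p] | ¬ ∃ b : Fin m → ℤ_[p], a = (p : ℤ_[p]) • b} =
      ⋃ i : Fin m, {a : Fin m → ℤ_[p] | 1 ≤ ‖a i‖} := by
    ext a
    simp only [mem_ofPred_eq, mem_iUnion]
    constructor
    · intro h
      by_contra hcon
      push Not at hcon
      apply h
      have h2 : ∀ i, ∃ b : ℤ_[p], a i = (p : ℤ_[p]) * b := fun i =>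
        (PadicInt.norm_lt_one_iff_dvd (a i)).mp (hcon i)
      choose b hb using h2
      exact ⟨b, funext fun i => by rw [Pi.smul_apply, smul_eq_mul]; exact hb i⟩
    · rintro ⟨i, hi⟩ ⟨b, rfl⟩
      rw [Pi.smul_apply, smul_eq_mul, norm_mul, PadicInt.norm_p] at hi
      have hp1 : (1 : ℝ) < p := by exact_mod_cast hp.out.one_lt
      have h3 : ((p : ℝ))⁻¹ < 1 := inv_lt_one_of_one_lt₀ hp1
      have h4 := PadicInt.norm_le_one (b i)
      have h5 : (p : ℝ)⁻¹ * ‖b i‖ ≤ (p : ℝ)⁻¹ * 1 := by gcongr
      linarith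
  rw [h1]
  apply isClosed_iUnion_of_finite
  intro i
  exact isClosed_le continuous_const ((continuous_apply i).norm)

end scale

end Pool.Agent.Rank
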