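import Pool.Agent.Helper3.HS.Deg4

/-!
# Divisibility of the degree by transport (helper93)
-/

set_option autoImplicit false

open Set MeasureTheory Metric Filter Topology
open scoped NNReal ENNReal

namespace Pool.Agent.Rank

open Pool.Agent.Helper3.HS

variable {V : Type*} [NormedAddCommGroup V] [NormedSpace ℝ V] [FiniteDimensional ℝ V]
  [MeasurableSpace V] [BorelSpace V] (μ : Measure V) [μ.IsAddHaarMeasure]

/-- **Degree sum.** The fibre of `A` in `U` is covered by the disjoint open sets `M i l`, `l < p`,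
and `M i l` is the image of `M i 0` under a map `g i l` of degree one such that `A ∘ g i l` and `A`
have the same degree on `M i 0`. Then `p` divides the degree of `A`. -/
theorem deg_sum {I : Type*} (s : Finset I) (p : ℕ) {U : Set V} (hU : IsOpen U)
    (hUb : Bornology.IsBounded U) {A : V → V} (hA : Continuous A) {y : V} {k : ℝ}
    (hk : HasDeg μ U A y k) (M : I → ℕ → Set V)
    (hMo : ∀ i ∈ s, ∀ l < p, IsOpen (M i l)) (hMU : ∀ i ∈ s, ∀ l < p, M i l ⊆ U)
    (hdisj : ∀ i ∈ s, ∀ l < p, ∀ i' ∈ s, ∀ l' < p, (i, l) ≠ (i', l') → Disjoint (M i l) (M i' l'))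
    (hcov : ∀ x ∈ closure U, A x = y → ∃ i ∈ s, ∃ l < p, x ∈ M i l)
    (g : I → ℕ → V → V) (hg : ∀ i ∈ s, ∀ l < p, Continuous (g i l))
    (himg : ∀ i ∈ s, ∀ l < p, ∀ x ∈ closure (M i 0), A (g i l x) = y → g i l x ∈ M i l)
    (hfr : ∀ i ∈ s, ∀ l < p, ∀ x ∈ frontier (M i 0), ∀ t ∈ Icc (0 : ℝ) 1,
      (1 - t) • (A (g i l x) - y) + t • (A x - y) ≠ 0)
    (hor : ∀ i ∈ s, ∀ l < p, ∀ z ∈ M i l, A z = y → HasDeg μ (M i 0) (g i l) z 1) :
    ∃ z : ℤ, k = p * z := by
  classical
  have : ProperSpace V := FiniteDimensional.proper ℝ V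
  rcases Nat.eq_zero_or_pos p with hp | hp
  · -- no sets at all
    subst hp
    have h0 : HasDeg μ U A y (∑ _i ∈ (∅ : Finset Unit), (0 : ℝ)) := by
      refine HasDeg.sum μ (∅ : Finset Unit) hU hUb (W := fun _ => (∅ : Set V)) (by simp) (by simp)
        (by simp) hA.continuousOn (fun x hx hxy => ?_) (by simp)
      obtain ⟨i, _, l, hl, _⟩ := hcov x hx hxy
      exact absurd hl (by omega)
    have h1 := HasDeg.unique μ hU hUb hA.continuousOn hk h0
    exact ⟨0, by rw [h1]; simp⟩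
  have hb : ∀ i ∈ s, ∀ l < p, Bornology.IsBounded (M i l) := fun i hi l hl =>
    hUb.subset (hMU i hi l hl)
  -- the values on the frontiers
  have hfr0 : ∀ i ∈ s, ∀ x ∈ frontier (M i 0), A x ≠ y := by
    intro i hi x hx hxy
    have := hfr i hi 0 hp x hx 1 ⟨zero_le_one, le_rfl⟩
    apply this
    rw [hxy]
    simp
  have hfrl : ∀ i ∈ s, ∀ l < p, ∀ x ∈ frontier (M i 0), A (g i l x) ≠ y := by
    intro i hi l hl x hx hxy
    have := hfr i hi l hl x hx 0 ⟨le_rfl, zero_le_one⟩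
    apply this
    rw [hxy]
    simp
  -- the frontier of `M i l` contains no point of the fibre
  have hfrM : ∀ i ∈ s, ∀ l < p, ∀ x ∈ frontier (M i l), A x ≠ y := by
    intro i hi l hl x hx hxy
    have hxc : x ∈ closure U := closure_mono (hMU i hi l hl) (frontier_subset_closure hx)
    obtain ⟨i', hi', l', hl', hx'⟩ := hcov x hxc hxy
    have hx2 := hx
    rw [(hMo i hi l hl).frontier_eq] at hx2
    by_cases hne : (i, l) = (i', l')
    · obtain ⟨h1, h2⟩ := Prod.mk.inj hne
      subst h1 h2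
      exact hx2.2 hx'
    · have h1 := hdisj i hi l hl i' hi' l' hl' hne
      obtain ⟨z, hz, hz'⟩ := mem_closure_iff.1 hx2.1 _ (hMo i' hi' l' hl') hx'
      exact Set.disjoint_left.1 h1 hz' hz
  have hex : ∀ i, i ∈ s → ∀ l, l < p → ∃ κ, HasDeg μ (M i l) A y κ := fun i hi l hl =>
    HasDeg.exists μ (hMo i hi l hl) (hb i hi l hl) hA.continuousOn (hfrM i hi l hl)
  choose! κ hκ using hex
  -- transport
  have htr : ∀ i ∈ s, ∀ l < p, κ i l = κ i 0 := by
    intro i hi l hl
    have h1 : HasDeg μ (M i 0) (fun x => A (g i l x)) y (1 * κ i l) :=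
      HasDeg.comp μ (hMo i hi 0 hp) (hb i hi 0 hp) (hMo i hi l hl) (hb i hi l hl) (hg i hi l hl) hA
        (himg i hi l hl) (hfrl i hi l hl) (hor i hi l hl) (hκ i hi l hl)
    have h2 : HasDeg μ (M i 0) A y (1 * κ i l) :=
      HasDeg.homotopy μ (hMo i hi 0 hp) (hb i hi 0 hp) (hA.comp (hg i hi l hl)).continuousOn
        hA.continuousOn h1 (hfr i hi l hl)
    rw [← one_mul (κ i l)]
    exact HasDeg.unique μ (hMo i hi 0 hp) (hb i hi 0 hp) hA.continuousOn h2 (hκ i hi 0 hp)
  have hint : ∀ i, i ∈ s → ∃ z : ℤ, κ i 0 = z := fun i hi =>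
    HasDeg.int μ (hMo i hi 0 hp) (hb i hi 0 hp) hA.continuousOn (hκ i hi 0 hp)
  choose! z hz using hint
  -- the sum
  have hsum := HasDeg.sum μ (s ×ˢ Finset.range p) hU hUb (W := fun q => M q.1 q.2)
    (fun q hq => by
      rw [Finset.mem_product, Finset.mem_range] at hq
      exact hMo _ hq.1 _ hq.2)
    (fun q hq => by
      rw [Finset.mem_product, Finset.mem_range] at hq
      exact hMU _ hq.1 _ hq.2)
    (fun q hq q' hq' hne => by
      rw [Finset.mem_coe, Finset.mem_product, Finset.mem_range] at hq hq'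
      exact hdisj _ hq.1 _ hq.2 _ hq'.1 _ hq'.2 hne)
    hA.continuousOn (y := y)
    (fun x hx hxy => by
      obtain ⟨i, hi, l, hl, hxl⟩ := hcov x hx hxy
      exact ⟨(i, l), by rw [Finset.mem_product, Finset.mem_range]; exact ⟨hi, hl⟩, hxl⟩)
    (k := fun q => κ q.1 q.2)
    (fun q hq => by
      rw [Finset.mem_product, Finset.mem_range] at hq
      exact hκ _ hq.1 _ hq.2)
  have h1 := HasDeg.unique μ hU hUb hA.continuousOn hk hsum
  refine ⟨∑ i ∈ s, z i, ?_⟩
  rw [h1, Finset.sum_product]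
  have h2 : ∀ i ∈ s, ∑ l ∈ Finset.range p, κ i l = p * z i := by
    intro i hi
    rw [Finset.sum_congr rfl fun l hl => (htr i hi l (Finset.mem_range.1 hl)).trans (hz i hi),
      Finset.sum_const, Finset.card_range, nsmul_eq_mul]
  rw [Finset.sum_congr rfl h2, ← Finset.mul_sum]
  push_cast
  rfl

end Pool.Agent.Rank
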